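import Pool.Agent.Helper5.FS.Stmts

/-! # FS row PS2: the number of large blocks -/

set_option autoImplicit false

open Finset

namespace Pool.Agent.Helper5.FS

theorem st_PS2 : ST_PS2 := by
  classical
  intro n T Q hQ
  have h1 : ∑ B ∈ Q, B.card ≤ n := by
    have h2 : (Q.biUnion id).card = ∑ B ∈ Q, B.card :=
      card_biUnion fun B hB C hC hBC => hQ.2.1 B hB C hC hBC
    rw [← h2]
    exact (card_le_univ _).trans_eq (Fintype.card_fin n)
  calc (Q.filter (fun B => ¬ 2 * B.card ≤ T)).card * T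
      = ∑ _B ∈ Q.filter (fun B => ¬ 2 * B.card ≤ T), T := by
        rw [sum_const, smul_eq_mul]
    _ ≤ ∑ B ∈ Q.filter (fun B => ¬ 2 * B.card ≤ T), 2 * B.card := by
        refine sum_le_sum fun B hB => ?_
        have := (mem_filter.1 hB).2
        omega
    _ ≤ ∑ B ∈ Q, 2 * B.card :=
        sum_le_sum_of_subset_of_nonneg (filter_subset _ _) fun _ _ _ => Nat.zero_le _
    _ = 2 * ∑ B ∈ Q, B.card := by rw [mul_sum]
    _ ≤ 2 * n := Nat.mul_le_mul_left 2 h1

end Pool.Agent.Helper5.FS
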